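import Pool.Agent.MP_587aff_al.Cones

set_option autoImplicit false
open scoped Pointwise
open Filter Topology

open Pool.Agent.MP_587aff_al

namespace Pool.Agent.Bridge4bac43

universe u

theorem growth_prod {G H : Type u} [Group G] [Group H] (hG : LocallySubexponentialGrowth G)
    (hH : LocallySubexponentialGrowth H) : LocallySubexponentialGrowth (G × H) := by
  classical
  intro S r hr
  set S1 : Finset G := S.image Prod.fst with hS1
  set S2 : Finset H := S.image Prod.snd with hS2
  have hq : 1 < Real.sqrt r := by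
    rw [Real.lt_sqrt (by norm_num)]; simpa using hr
  have hsub : ∀ n : ℕ, ((S : Set (G × H)) ^ n) ⊆ ((S1 : Set G) ^ n) ×ˢ ((S2 : Set H) ^ n) := by
    intro n
    induction n with
    | zero =>
      intro x hx
      simp only [pow_zero, Set.mem_one] at hx
      subst hx
      simp
    | succ n ih =>
      rw [pow_succ, pow_succ, pow_succ]
      rintro _ ⟨a, ha, b, hb, rfl⟩
      have h1 := ih ha
      have hb' : b ∈ S := hb
      refine ⟨⟨a.1, h1.1, b.1, ?_, rfl⟩, ⟨a.2, h1.2, b.2, ?_, rfl⟩⟩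
      · exact Finset.mem_coe.mpr (Finset.mem_image_of_mem _ hb')
      · exact Finset.mem_coe.mpr (Finset.mem_image_of_mem _ hb')
  filter_upwards [hG S1 _ hq, hH S2 _ hq] with n h1 h2
  have hf1 : ((S1 : Set G) ^ n).Finite := by
    rw [← Finset.coe_pow]; exact Finset.finite_toSet _
  have hf2 : ((S2 : Set H) ^ n).Finite := by
    rw [← Finset.coe_pow]; exact Finset.finite_toSet _
  have h3 : ((S : Set (G × H)) ^ n).ncard ≤ ((S1 : Set G) ^ n).ncard * ((S2 : Set H) ^ n).ncard := by
    rw [← Set.ncard_prod]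
    exact Set.ncard_le_ncard (hsub n) (hf1.prod hf2)
  calc (((S : Set (G × H)) ^ n).ncard : ℝ)
      ≤ (((S1 : Set G) ^ n).ncard : ℝ) * (((S2 : Set H) ^ n).ncard : ℝ) := by exact_mod_cast h3
    _ ≤ (Real.sqrt r) ^ n * (Real.sqrt r) ^ n :=
        mul_le_mul h1 h2 (by positivity) (by positivity)
    _ = r ^ n := by rw [← mul_pow, Real.mul_self_sqrt (by linarith)]

/-- The fixed-point property in the form used by the frozen statement. -/
def FPC (G : Type) [Group G] : Prop :=
  ∀ (E : Type) [AddCommGroup E] [Module ℝ E] [TopologicalSpace E]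
      [IsTopologicalAddGroup E] [ContinuousSMul ℝ E] [LocallyConvexSpace ℝ E] [T2Space E]
      (C : PointedCone ℝ E) (ρ : G →* (E →L[ℝ] E)),
      (∀ x : E, x ∈ C → -x ∈ C → x = 0) →
      IsComplete ((fun x : E => fun f : E →L[ℝ] ℝ => f x) '' (C : Set E)) →
      (∀ g : G, ∀ x ∈ C, (ρ g) x ∈ C) →
      (∃ x ∈ C, x ≠ 0 ∧ Bornology.IsVonNBounded ℝ (Set.range fun g : G => (ρ g) x)) →
      (∃ φ : E →L[ℝ] ℝ, ∀ l : E →L[ℝ] ℝ, ∃ (n : ℕ) (g : Fin n → G),
          ∀ x ∈ C, |l x| ≤ ∑ i, φ ((ρ (g i)⁻¹) x)) →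
      ∃ x ∈ C, x ≠ 0 ∧ ∀ g : G, (ρ g) x = x

theorem weaklyComplete_iff {E : Type} [AddCommGroup E] [Module ℝ E] [TopologicalSpace E]
    (C : Set E) :
    WeaklyComplete C ↔ IsComplete ((fun x : E => fun f : E →L[ℝ] ℝ => f x) '' C) := by
  set ι : E → (E →L[ℝ] ℝ) → ℝ := fun x => fun f => f x with hι
  constructor
  · intro h 𝓕 hF hle
    obtain ⟨hne, hFc⟩ := hF
    set F : Filter E := 𝓟 C ⊓ comap ι 𝓕 with hFdef
    have hmap : map ι F = 𝓕 := by
      rw [hFdef, Filter.push_pull, Filter.map_principal]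
      exact inf_eq_right.mpr hle
    have hFne : F.NeBot := by
      rw [← Filter.map_neBot_iff ι, hmap]
      exact hne
    have hCF : C ∈ F := Filter.mem_inf_of_left (Filter.mem_principal_self C)
    obtain ⟨c, hc, hlim⟩ := h F hFne hCF (fun l => by
      have h1 : F.map l = 𝓕.map (fun y => y l) := by
        rw [← hmap, Filter.map_map]
        rfl
      rw [h1]
      exact Cauchy.map ⟨hne, hFc⟩ (Pi.uniformContinuous_proj _ l))
    refine ⟨ι c, ⟨c, hc, rfl⟩, ?_⟩
    rw [← hmap]
    exact tendsto_pi_nhds.mpr hlim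
  · intro h F hFne hCF hl
    have hC : Cauchy (F.map ι) := by
      rw [cauchy_pi_iff]
      intro l
      have := hl l
      rw [Filter.map_map]
      exact this
    obtain ⟨_, ⟨c, hc, rfl⟩, hlim⟩ := h (F.map ι) hC (by
      rw [Filter.le_principal_iff]
      exact Filter.mem_map.mpr (Filter.mem_of_superset hCF (fun x hx => ⟨x, hx, rfl⟩)))
    exact ⟨c, hc, fun l => (tendsto_pi_nhds.mp hlim) l⟩

theorem fpc_iff (G : Type) [Group G] : FPC G ↔ FixedPointPropertyForCones G := by
  constructor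
  · intro h E _ _ _ _ _ _ _ ρ C hC hlb hcb
    let C' : PointedCone ℝ E :=
      { carrier := C
        add_mem' := fun {a b} ha hb => hC.add_mem a ha b hb
        zero_mem' := hC.zero_mem
        smul_mem' := fun c x hx => hC.smul_mem c.1 c.2 x hx }
    have hmem : ∀ x, x ∈ C' ↔ x ∈ C := fun x => Iff.rfl
    obtain ⟨φ, hφ⟩ := hcb
    obtain ⟨x, hx, hx0, hfix⟩ := h E C' ρ (fun x hx hnx => hC.proper x hx hnx)
      ((weaklyComplete_iff C).mp hC.complete) (fun g x hx => hC.maps g x hx)
      hlb ⟨φ, fun l => by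
        obtain ⟨n, g, hg⟩ := hφ l
        refine ⟨n, g, fun x hx => ?_⟩
        rw [abs_le]
        have := hg x hx
        constructor
        · linarith [this.2]
        · exact this.1⟩
    exact ⟨x, hx, hx0, hfix⟩
  · intro h E _ _ _ _ _ _ _ C ρ hprop hcomp hmaps hlb hcb
    obtain ⟨φ, hφ⟩ := hcb
    obtain ⟨x, hx, hx0, hfix⟩ := h E ρ (C : Set E)
      { zero_mem := C.zero_mem
        add_mem := fun x hx y hy => C.add_mem hx hy
        smul_mem := fun c hc x hx => C.smul_mem hc hx
        proper := fun x hx hnx => hprop x hx hnx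
        complete := (weaklyComplete_iff (C : Set E)).mpr hcomp
        maps := hmaps } hlb ⟨φ, fun l => by
          obtain ⟨n, g, hg⟩ := hφ l
          refine ⟨n, g, fun x hx => ?_⟩
          have := hg x hx
          rw [abs_le] at this
          exact ⟨this.2, by linarith [this.1]⟩⟩
    exact ⟨x, hx, hx0, hfix⟩

theorem fpc_prod (G H : Type) [Group G] [Group H] (hG : FPC G) (hH : FPC H) : FPC (G × H) := by
  rw [fpc_iff] at hG hH ⊢
  exact cones_of_form (formProperty_of_growth (growth_prod (growth_of_cones hG) (growth_of_cones hH)))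

end Pool.Agent.Bridge4bac43
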