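import Mathlib

set_option autoImplicit false

/-!
# A separable non-SCD Banach space without any Daugavet renorming  (MP_e11434_an)

`T = ω^{<ω}`, `X` = closed span of the unit vectors in the norm
`‖x‖ = sup_D ∑_{t ∈ D} |x_t|`, `D` ranging over the antichains of `T` which contain at most one
child of every node.  `X` has a `1`-unconditional basis, so no renorming has the Daugavet
property; the set `conv {x_t}` of branch vectors is not slicely countably determined.
-/

namespace Pool.Agent.E11434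

open Set Topology BoundedContinuousFunction

section DP

variable {Y : Type*} [NormedAddCommGroup Y] [NormedSpace ℝ Y]

/-- The Daugavet property, slice form. -/
theorem slice_lemma
    (hDP : ∀ (f : Y →L[ℝ] ℝ) (v : Y),
      ‖ContinuousLinearMap.id ℝ Y + f.smulRight v‖ = 1 + ‖f.smulRight v‖)
    (G : Y →L[ℝ] ℝ) (c : ℝ) (y0 : Y) (hy0 : ‖y0‖ ≤ 1) (hc : c < G y0)
    (u : Y) (hu : ‖u‖ = 1) (ε : ℝ) (hε : 0 < ε) :
    ∃ y : Y, ‖y‖ ≤ 1 ∧ c < G y ∧ 2 - ε < ‖y + u‖ := by
  by_cases hG : G = 0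
  · refine ⟨u, hu.le, ?_, ?_⟩
    · rw [hG] at hc ⊢
      simpa using hc
    · have : u + u = (2 : ℝ) • u := by rw [two_smul]
      rw [this, norm_smul, hu]
      norm_num
      exact hε
  have hN : 0 < ‖G‖ := norm_pos_iff.mpr hG
  have hcN : c < ‖G‖ := by
    have h1 : G y0 ≤ ‖G‖ * ‖y0‖ := le_trans (le_abs_self _) (G.le_opNorm y0)
    have h2 : ‖G‖ * ‖y0‖ ≤ ‖G‖ * 1 := by gcongr
    linarith
  set f : Y →L[ℝ] ℝ := (‖G‖)⁻¹ • G with hf
  have hfn : ‖f‖ = 1 := by
    rw [hf, norm_smul, norm_inv, norm_norm, inv_mul_cancel₀ hN.ne']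
  have hGf : ∀ y, G y = ‖G‖ * f y := by
    intro y
    rw [hf]
    simp only [FunLike.coe_smul, Pi.smul_apply, smul_eq_mul]
    rw [← mul_assoc, mul_inv_cancel₀ hN.ne', one_mul]
  have hη : 0 < min (ε / 2) (1 - c / ‖G‖) := by
    refine lt_min (by linarith) ?_
    have : c / ‖G‖ < 1 := by
      rw [div_lt_one hN]
      exact hcN
    linarith
  set η : ℝ := min (ε / 2) (1 - c / ‖G‖) with hηdef
  have hη1 : η ≤ ε / 2 := min_le_left _ _
  have hη2 : η ≤ 1 - c / ‖G‖ := min_le_right _ _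
  have hnorm : ‖ContinuousLinearMap.id ℝ Y + f.smulRight u‖ = 2 := by
    rw [hDP, ContinuousLinearMap.norm_smulRight_apply, hfn, hu]
    norm_num
  obtain ⟨y, hy1, hy2⟩ := ContinuousLinearMap.exists_lt_apply_of_lt_opNorm
    (ContinuousLinearMap.id ℝ Y + f.smulRight u) (r := 2 - η) (by rw [hnorm]; linarith)
  simp only [_root_.add_apply, ContinuousLinearMap.coe_id', id_eq,
    ContinuousLinearMap.smulRight_apply] at hy2
  have key : ∀ z : Y, ‖z‖ ≤ 1 → 0 ≤ f z → 2 - η < ‖z + f z • u‖ →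
      ∃ y : Y, ‖y‖ ≤ 1 ∧ c < G y ∧ 2 - ε < ‖y + u‖ := by
    intro z hz1 hz2 hz3
    have h1 : ‖z + f z • u‖ ≤ ‖z‖ + f z := by
      refine (norm_add_le _ _).trans ?_
      rw [norm_smul, hu, Real.norm_of_nonneg hz2, mul_one]
    have h2 : 1 - η < f z := by linarith
    have h3 : f z ≤ 1 := by
      have := (le_abs_self _).trans (f.le_opNorm z)
      rw [hfn, one_mul] at this
      linarith
    refine ⟨z, hz1, ?_, ?_⟩
    · rw [hGf]
      have h4 : c / ‖G‖ < f z := by linarith
      rw [div_lt_iff₀ hN] at h4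
      linarith
    · have h5 : z + f z • u = (z + u) - (1 - f z) • u := by
        rw [sub_smul, one_smul]; abel
      have h6 : ‖z + f z • u‖ ≤ ‖z + u‖ + (1 - f z) := by
        rw [h5]
        refine (norm_sub_le _ _).trans ?_
        rw [norm_smul, hu, Real.norm_of_nonneg (by linarith), mul_one]
      linarith
  rcases le_total 0 (f y) with h | h
  · exact key y hy1.le h hy2
  · refine key (-y) (by rw [norm_neg]; exact hy1.le) (by rw [map_neg]; linarith) ?_
    have : -y + f (-y) • u = -(y + f y • u) := by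
      rw [map_neg, neg_smul]; abel
    rw [this, norm_neg]
    exact hy2

/-- In a space with the Daugavet property finite-rank operators satisfy the Daugavet equation. -/
theorem de_finrank
    (hDP : ∀ (f : Y →L[ℝ] ℝ) (v : Y),
      ‖ContinuousLinearMap.id ℝ Y + f.smulRight v‖ = 1 + ‖f.smulRight v‖)
    {ι : Type*} (A : Finset ι) (φ : ι → Y →L[ℝ] ℝ) (v : ι → Y)
    (T : Y →L[ℝ] Y) (hT : ∀ y, T y = ∑ t ∈ A, φ t y • v t) (hT0 : 0 < ‖T‖)
    (η : ℝ) (hη : 0 < η) :
    ∃ y : Y, ‖y‖ ≤ 1 ∧ 1 + ‖T‖ - η ≤ ‖y - T y‖ := by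
  set N : ℝ := ‖T‖ with hN
  set κ : ℝ := min η N / 4 with hκ
  have hκ0 : 0 < κ := by
    have : 0 < min η N := lt_min hη hT0
    positivity
  have hκη : 4 * κ ≤ η := by
    have := min_le_left η N
    rw [hκ]; linarith
  have hκN : 4 * κ ≤ N := by
    have := min_le_right η N
    rw [hκ]; linarith
  obtain ⟨v0, hv0, hv1⟩ := ContinuousLinearMap.exists_lt_apply_of_lt_opNorm T
    (r := N - κ) (by linarith)
  have hTv0 : T v0 ≠ 0 := by
    intro h0
    rw [h0, norm_zero] at hv1
    linarith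
  obtain ⟨h, hh1, hh2⟩ := exists_dual_vector ℝ (T v0) (norm_ne_zero_iff.mpr hTv0)
  have hh2' : h (T v0) = ‖T v0‖ := by simpa using hh2
  set q : Y → ℝ := fun y => ∑ t ∈ A, (φ t y) ^ 2 with hq
  have hq0 : ∀ y, 0 ≤ q y := fun y => Finset.sum_nonneg (fun t _ => sq_nonneg _)
  set C1 : ℝ := ∑ t ∈ A, ‖φ t‖ ^ 2 with hC1
  have hC10 : 0 ≤ C1 := Finset.sum_nonneg (fun t _ => sq_nonneg _)
  have hqC : ∀ y, ‖y‖ ≤ 1 → q y ≤ C1 := by
    intro y hy
    refine Finset.sum_le_sum (fun t _ => ?_)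
    have h1 : |φ t y| ≤ ‖φ t‖ := by
      refine ((φ t).le_opNorm y).trans ?_
      calc ‖φ t‖ * ‖y‖ ≤ ‖φ t‖ * 1 := by gcongr
        _ = ‖φ t‖ := mul_one _
    calc (φ t y) ^ 2 = |φ t y| ^ 2 := (sq_abs _).symm
      _ ≤ ‖φ t‖ ^ 2 := by gcongr
  set C2 : ℝ := ∑ t ∈ A, ‖v t‖ with hC2
  have hC20 : 0 ≤ C2 := Finset.sum_nonneg (fun t _ => norm_nonneg _)
  set R : ℝ := (C1 + 1) / (2 * κ) with hR
  have hR0 : 0 < R := by positivity
  have hRκ : 2 * R * κ = C1 + 1 := by
    rw [hR]; field_simp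
  set F : Y → ℝ := fun y => q y + 2 * R * h (T y) with hF
  have hhT : ∀ y, ‖y‖ ≤ 1 → h (T y) ≤ N := by
    intro y hy
    calc h (T y) ≤ |h (T y)| := le_abs_self _
      _ ≤ ‖h‖ * ‖T y‖ := h.le_opNorm _
      _ ≤ 1 * (‖T‖ * ‖y‖) := by
          rw [hh1]
          have := T.le_opNorm y
          linarith
      _ ≤ 1 * (‖T‖ * 1) := by gcongr
      _ = N := by rw [hN]; ring
  have hFb : ∀ y, ‖y‖ ≤ 1 → F y ≤ C1 + 2 * R * N := by
    intro y hy
    have h1 := hqC y hy
    have h2 := hhT y hy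
    have h3 : 2 * R * h (T y) ≤ 2 * R * N := by gcongr
    simp only [hF]
    linarith
  set δ : ℝ := min 1 (κ ^ 2 / (3 * (C2 + 1) ^ 2)) with hδ
  have hδ0 : 0 < δ := by
    refine lt_min one_pos ?_
    positivity
  have hδ1 : δ ≤ 1 := min_le_left _ _
  have hδ2 : 3 * δ * (C2 + 1) ^ 2 ≤ κ ^ 2 := by
    have h1 : δ ≤ κ ^ 2 / (3 * (C2 + 1) ^ 2) := min_le_right _ _
    rw [le_div_iff₀ (by positivity)] at h1
    linarith
  -- near maximiser
  obtain ⟨y0, hy0, hmax⟩ : ∃ y0 : Y, ‖y0‖ ≤ 1 ∧ ∀ y, ‖y‖ ≤ 1 → F y < F y0 + δ := by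
    have hne : (F '' {y | ‖y‖ ≤ 1}).Nonempty := ⟨F 0, 0, by simp, rfl⟩
    have hbdd : BddAbove (F '' {y | ‖y‖ ≤ 1}) :=
      ⟨C1 + 2 * R * N, by rintro _ ⟨y, hy, rfl⟩; exact hFb y hy⟩
    obtain ⟨_, ⟨y0, hy0, rfl⟩, hlt⟩ := exists_lt_of_lt_csSup hne
      (b := sSup (F '' {y | ‖y‖ ≤ 1}) - δ) (by linarith)
    refine ⟨y0, hy0, fun y hy => ?_⟩
    have := le_csSup hbdd ⟨y, hy, rfl⟩
    linarith
  have hp : N - 2 * κ < h (T y0) := by
    have h1 := hmax v0 hv0.le
    simp only [hF] at h1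
    have h2 := hq0 v0
    have h3 := hqC y0 hy0
    have h4 : 2 * R * (h (T v0) - h (T y0)) < 2 * R * κ := by
      rw [hRκ]; nlinarith
    have h5 : h (T v0) - h (T y0) < κ := lt_of_mul_lt_mul_left h4 (by positivity)
    rw [hh2'] at h5
    linarith
  set p : Y := T y0 with hpdef
  have hpn : N - 2 * κ < ‖p‖ := by
    have : h p ≤ ‖p‖ := by
      have := (le_abs_self _).trans (h.le_opNorm p)
      rw [hh1, one_mul] at this
      exact this
    linarith
  have hp0 : 0 < ‖p‖ := by linarith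
  have hpN : ‖p‖ ≤ N := by
    calc ‖p‖ ≤ ‖T‖ * ‖y0‖ := T.le_opNorm y0
      _ ≤ ‖T‖ * 1 := by gcongr
      _ = N := by rw [hN]; ring
  set G : Y →L[ℝ] ℝ := (∑ t ∈ A, (φ t y0) • φ t) + R • (h.comp T) with hG
  have hGy : ∀ y, G y = (∑ t ∈ A, φ t y0 * φ t y) + R * h (T y) := by
    intro y
    rw [hG]
    simp
  set u : Y := -((‖p‖)⁻¹ • p) with hu
  have hu1 : ‖u‖ = 1 := by
    rw [hu, norm_neg, norm_smul, norm_inv, norm_norm, inv_mul_cancel₀ hp0.ne']
  have hε : 0 < κ / (1 + N) := by positivity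
  obtain ⟨y, hy1, hy2, hy3⟩ := slice_lemma hDP G (G y0 - δ) y0 hy0 (by linarith) u hu1
    (κ / (1 + N)) hε
  refine ⟨y, hy1, ?_⟩
  -- q (y - y0) < 3 δ
  have hq1 : q (y - y0) ≤ 3 * δ := by
    have h1 : q (y - y0) = q y + q y0 - 2 * ∑ t ∈ A, φ t y0 * φ t y := by
      simp only [hq, map_sub]
      rw [Finset.mul_sum, ← Finset.sum_add_distrib, ← Finset.sum_sub_distrib]
      refine Finset.sum_congr rfl (fun t _ => ?_)
      ring
    have h2 : ∑ t ∈ A, φ t y0 * φ t y = G y - R * h (T y) := by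
      rw [hGy]; ring
    have h3 : G y0 = q y0 + R * h (T y0) := by
      rw [hGy]
      simp only [hq]
      congr 1
      refine Finset.sum_congr rfl (fun t _ => ?_)
      ring
    have h4 := hmax y hy1
    simp only [hF] at h4
    rw [h1, h2]
    linarith
  have hTy : ‖T y - p‖ ≤ κ := by
    have h1 : T y - p = ∑ t ∈ A, φ t (y - y0) • v t := by
      rw [hpdef, ← map_sub, hT]
    have h2 : ∀ t ∈ A, |φ t (y - y0)| ≤ Real.sqrt (3 * δ) := by
      intro t ht
      apply Real.abs_le_sqrt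
      refine le_trans ?_ hq1
      exact Finset.single_le_sum (f := fun t => (φ t (y - y0)) ^ 2)
        (fun t _ => sq_nonneg _) ht
    have h3 : ‖T y - p‖ ≤ Real.sqrt (3 * δ) * C2 := by
      rw [h1, hC2, Finset.mul_sum]
      refine (norm_sum_le _ _).trans (Finset.sum_le_sum (fun t ht => ?_))
      rw [norm_smul]
      have := h2 t ht
      gcongr
      exact this
    have h4 : Real.sqrt (3 * δ) * C2 ≤ κ := by
      have h5 : (Real.sqrt (3 * δ) * (C2 + 1)) ^ 2 ≤ κ ^ 2 := by
        rw [mul_pow, Real.sq_sqrt (by positivity)]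
        exact hδ2
      have h6 : Real.sqrt (3 * δ) * (C2 + 1) ≤ κ :=
        le_of_sq_le_sq h5 hκ0.le
      have h7 := Real.sqrt_nonneg (3 * δ)
      nlinarith
    exact h3.trans h4
  have hyp : 1 + ‖p‖ - κ ≤ ‖y - p‖ := by
    set ε : ℝ := κ / (1 + N) with hεdef
    have hεN : (1 + ‖p‖) * ε ≤ κ := by
      have : (1 + N) * ε = κ := by rw [hεdef]; field_simp
      nlinarith
    have hpu : p = -(‖p‖ • u) := by
      rw [hu, smul_neg, neg_neg, smul_smul, mul_inv_cancel₀ hp0.ne', one_smul]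
    have hyu : y - p = y + ‖p‖ • u := by
      conv_lhs => rw [hpu]
      rw [sub_neg_eq_add]
    rw [hyu]
    rcases le_total 1 ‖p‖ with h1 | h1
    · have h2 : ‖p‖ • (y + u) = (y + ‖p‖ • u) + (‖p‖ - 1) • y := by
        rw [smul_add, sub_smul, one_smul]; abel
      have h3 : ‖p‖ * ‖y + u‖ ≤ ‖y + ‖p‖ • u‖ + (‖p‖ - 1) := by
        have h4 : ‖‖p‖ • (y + u)‖ = ‖p‖ * ‖y + u‖ := by
          rw [norm_smul, norm_norm]
        rw [← h4, h2]
        refine (norm_add_le _ _).trans ?_
        rw [norm_smul, Real.norm_of_nonneg (by linarith)]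
        have : (‖p‖ - 1) * ‖y‖ ≤ (‖p‖ - 1) * 1 := by
          apply mul_le_mul_of_nonneg_left hy1; linarith
        linarith
      have h5 : ‖p‖ * (2 - ε) ≤ ‖p‖ * ‖y + u‖ := by
        apply mul_le_mul_of_nonneg_left hy3.le hp0.le
      nlinarith
    · have h2 : y + u = (y + ‖p‖ • u) + (1 - ‖p‖) • u := by
        rw [sub_smul, one_smul]; abel
      have h3 : ‖y + u‖ ≤ ‖y + ‖p‖ • u‖ + (1 - ‖p‖) := by
        conv_lhs => rw [h2]
        refine (norm_add_le _ _).trans ?_
        rw [norm_smul (1 - ‖p‖), hu1, Real.norm_of_nonneg (by linarith), mul_one]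
      nlinarith
  have hfin : ‖y - p‖ ≤ ‖y - T y‖ + ‖T y - p‖ := by
    have : y - p = (y - T y) + (T y - p) := by abel
    rw [this]
    exact norm_add_le _ _
  linarith

end DP


/-- Admissible sign functions on the tree of finite sequences of naturals (`n :: t` is the `n`-th
child of `t`): the support is an antichain containing at most one child of every node. -/
def Adm (g : List ℕ → ℝ) : Prop :=
  (∀ t, |g t| ≤ 1) ∧
  (∀ s t, g s ≠ 0 → g t ≠ 0 → s <:+ t → s = t) ∧
  (∀ n m t, g (n :: t) ≠ 0 → g (m :: t) ≠ 0 → n = m)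

/-- The index set. -/
def I : Type := {g : List ℕ → ℝ // Adm g}

instance : TopologicalSpace I := ⊥
instance : DiscreteTopology I := ⟨rfl⟩

/-- The ambient space `ℓ_∞(I)`. -/
def W : Type := I →ᵇ ℝ

noncomputable instance : NormedAddCommGroup W := inferInstanceAs (NormedAddCommGroup (I →ᵇ ℝ))
noncomputable instance : NormedSpace ℝ W := inferInstanceAs (NormedSpace ℝ (I →ᵇ ℝ))
instance : CompleteSpace W := inferInstanceAs (CompleteSpace (I →ᵇ ℝ))

/-- point evaluation on `W` -/
noncomputable def evW (g : I) : W →L[ℝ] ℝ := BoundedContinuousFunction.evalCLM ℝ g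

theorem norm_W_le (x : W) (C : ℝ) (hC : 0 ≤ C) (h : ∀ g, ‖evW g x‖ ≤ C) : ‖x‖ ≤ C :=
  (BoundedContinuousFunction.norm_le (f := (x : I →ᵇ ℝ)) hC).mpr h

theorem le_norm_W (x : W) (g : I) : ‖evW g x‖ ≤ ‖x‖ :=
  BoundedContinuousFunction.norm_coe_le_norm (x : I →ᵇ ℝ) g

/-- The unit vectors. -/
noncomputable def e (t : List ℕ) : W :=
  BoundedContinuousFunction.ofNormedAddCommGroupDiscrete (fun g : I => g.1 t) 1
    (fun g => by simpa using g.2.1 t)

@[simp] theorem evW_e (t : List ℕ) (g : I) : evW g (e t) = g.1 t := rfl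

/-- The tree space. -/
noncomputable def X : Submodule ℝ W := (Submodule.span ℝ (range e)).topologicalClosure

noncomputable instance : CompleteSpace X := by
  unfold X; infer_instance

instance : TopologicalSpace.SeparableSpace X := by
  have h : TopologicalSpace.IsSeparable (X : Set W) := by
    unfold X
    rw [Submodule.topologicalClosure_coe]
    exact ((Set.countable_range e).isSeparable.span (R := ℝ)).closure
  exact h.separableSpace

theorem e_mem (t : List ℕ) : e t ∈ X :=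
  Submodule.le_topologicalClosure _ (Submodule.subset_span ⟨t, rfl⟩)

/-- unit vectors in `X` -/
noncomputable def eX (t : List ℕ) : X := ⟨e t, e_mem t⟩

/-- evaluation functionals on `X` -/
noncomputable def ev (g : I) : X →L[ℝ] ℝ := (evW g).comp X.subtypeL

@[simp] theorem ev_eX (t : List ℕ) (g : I) : ev g (eX t) = g.1 t := rfl

theorem norm_X_le (x : X) (C : ℝ) (hC : 0 ≤ C) (h : ∀ g, ‖ev g x‖ ≤ C) : ‖x‖ ≤ C :=
  norm_W_le (x : W) C hC h

theorem le_norm_X (x : X) (g : I) : ‖ev g x‖ ≤ ‖x‖ := le_norm_W (x : W) g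

/-- Induction principle for continuous linear maps on `X`. -/
theorem clm_ext {F : Type*} [NormedAddCommGroup F] [NormedSpace ℝ F] (S T : X →L[ℝ] F)
    (h : ∀ t, S (eX t) = T (eX t)) : S = T := by
  have hclosed : IsClosed {x : X | S x = T x} := isClosed_eq S.continuous T.continuous
  ext ⟨x, hx⟩
  have hx' : x ∈ closure ((Submodule.span ℝ (range e) : Submodule ℝ W) : Set W) := by
    rw [← Submodule.topologicalClosure_coe]; exact hx
  rw [mem_closure_iff_seq_limit] at hx'
  obtain ⟨z, hz, hlim⟩ := hx'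
  have hspan : ∀ w (hw : w ∈ Submodule.span ℝ (range e)),
      S ⟨w, Submodule.le_topologicalClosure _ hw⟩ = T ⟨w, Submodule.le_topologicalClosure _ hw⟩ := by
    intro w hw
    induction hw using Submodule.span_induction with
    | mem x hx =>
      obtain ⟨t, rfl⟩ := hx
      exact h t
    | zero =>
      exact (map_zero S).trans (map_zero T).symm
    | add x y hx hy h1 h2 =>
      have e1 : (⟨x + y, Submodule.le_topologicalClosure _ (add_mem hx hy)⟩ : X)
        = ⟨x, Submodule.le_topologicalClosure _ hx⟩ + ⟨y, Submodule.le_topologicalClosure _ hy⟩ := rfl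
      rw [e1, map_add, map_add, h1, h2]
    | smul a x hx h1 =>
      have e1 : (⟨a • x, Submodule.le_topologicalClosure _ (Submodule.smul_mem _ a hx)⟩ : X)
        = a • ⟨x, Submodule.le_topologicalClosure _ hx⟩ := rfl
      rw [e1, map_smul, map_smul, h1]
  have hlim' : Filter.Tendsto (fun n => (⟨z n, Submodule.le_topologicalClosure _ (hz n)⟩ : X))
      Filter.atTop (𝓝 ⟨x, hx⟩) := by
    rw [tendsto_subtype_rng]
    exact hlim
  exact hclosed.mem_of_tendsto hlim' (Filter.Eventually.of_forall (fun n => hspan _ (hz n)))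

/-- restricting the support of an admissible function -/
noncomputable def restr (A : Finset (List ℕ)) (g : I) : I :=
  ⟨fun t => if t ∈ A then g.1 t else 0, by
    classical
    obtain ⟨g, h1, h2, h3⟩ := g
    have key : ∀ t, (if t ∈ A then g t else 0) ≠ 0 → g t ≠ 0 := by
      intro t ht
      by_cases hA : t ∈ A
      · simpa [hA] using ht
      · simp [hA] at ht
    refine ⟨fun t => ?_, fun s t hs ht => h2 s t (key s hs) (key t ht),
      fun n m t hn hm => h3 n m t (key _ hn) (key _ hm)⟩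
    show |if t ∈ A then g t else 0| ≤ 1
    split_ifs
    · exact h1 t
    · simp⟩

/-- the indicator function of a single node -/
noncomputable def dlt (s : List ℕ) : I :=
  ⟨fun t => if t = s then 1 else 0, by
    have key : ∀ t, (if t = s then (1 : ℝ) else 0) ≠ 0 → t = s := by
      intro t ht
      by_contra h
      simp [h] at ht
    refine ⟨fun t => ?_, fun a t hs ht _ => (key a hs).trans (key t ht).symm,
      fun n m t hn hm => ?_⟩
    · show |if t = s then (1 : ℝ) else 0| ≤ 1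
      split_ifs <;> simp
    · have h1 := (key _ hn).trans (key _ hm).symm
      simpa using h1⟩

@[simp] theorem dlt_apply (s t : List ℕ) : (dlt s).1 t = if t = s then 1 else 0 := rfl
@[simp] theorem restr_apply (A : Finset (List ℕ)) (g : I) (t : List ℕ) :
  (restr A g).1 t = if t ∈ A then g.1 t else 0 := rfl

/-- the coordinate projections -/
noncomputable def P (A : Finset (List ℕ)) : X →L[ℝ] X :=
  ∑ t ∈ A, (ev (dlt t)).smulRight (eX t)

theorem P_apply (A : Finset (List ℕ)) (x : X) :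
    P A x = ∑ t ∈ A, ev (dlt t) x • eX t := by
  unfold P
  simp

theorem P_eX (A : Finset (List ℕ)) (s : List ℕ) : P A (eX s) = if s ∈ A then eX s else 0 := by
  rw [P_apply]
  simp only [ev_eX, dlt_apply, ite_smul, one_smul, zero_smul]
  rw [Finset.sum_ite_eq]

theorem ev_P (A : Finset (List ℕ)) (g : I) (x : X) : ev g (P A x) = ev (restr A g) x := by
  have : (ev g).comp (P A) = ev (restr A g) := by
    apply clm_ext
    intro t
    simp only [ContinuousLinearMap.comp_apply]
    rw [P_eX]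
    split_ifs with h
    · simp [h]
    · simp [h]
  exact DFunLike.congr_fun this x

theorem norm_P_le (A : Finset (List ℕ)) (x : X) : ‖P A x‖ ≤ ‖x‖ := by
  refine norm_X_le _ _ (norm_nonneg _) (fun g => ?_)
  rw [ev_P A g x]
  exact le_norm_X x _

theorem P_tendsto (x : X) (ε : ℝ) (hε : 0 < ε) :
    ∃ B : Finset (List ℕ), ∀ B', B ⊆ B' → ‖P B' x - x‖ < ε := by
  classical
  obtain ⟨x, hx⟩ := x
  have hx' : x ∈ closure ((Submodule.span ℝ (range e) : Submodule ℝ W) : Set W) := by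
    rw [← Submodule.topologicalClosure_coe]; exact hx
  rw [Metric.mem_closure_iff] at hx'
  obtain ⟨z, hz, hxz⟩ := hx' (ε / 2) (by linarith)
  have hspan : ∀ w (hw : w ∈ Submodule.span ℝ (range e)), ∃ B : Finset (List ℕ), ∀ B', B ⊆ B' →
      P B' ⟨w, Submodule.le_topologicalClosure _ hw⟩ = ⟨w, Submodule.le_topologicalClosure _ hw⟩ := by
    intro w hw
    induction hw using Submodule.span_induction with
    | mem x hx =>
      obtain ⟨t, rfl⟩ := hx
      refine ⟨{t}, fun B' hB' => ?_⟩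
      have ht : t ∈ B' := hB' (by simp)
      have := P_eX B' t
      rw [if_pos ht] at this
      exact this
    | zero =>
      exact ⟨∅, fun B' _ => map_zero (P B')⟩
    | add x y hx hy h1 h2 =>
      obtain ⟨B1, h1⟩ := h1
      obtain ⟨B2, h2⟩ := h2
      refine ⟨B1 ∪ B2, fun B' hB' => ?_⟩
      have e1 : (⟨x + y, Submodule.le_topologicalClosure _ (add_mem hx hy)⟩ : X)
        = ⟨x, Submodule.le_topologicalClosure _ hx⟩ + ⟨y, Submodule.le_topologicalClosure _ hy⟩ := rfl
      rw [e1, map_add, h1 B' (Finset.union_subset_left hB'), h2 B' (Finset.union_subset_right hB')]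
    | smul a x hx h1 =>
      obtain ⟨B1, h1⟩ := h1
      refine ⟨B1, fun B' hB' => ?_⟩
      have e1 : (⟨a • x, Submodule.le_topologicalClosure _ (Submodule.smul_mem _ a hx)⟩ : X)
        = a • ⟨x, Submodule.le_topologicalClosure _ hx⟩ := rfl
      rw [e1, map_smul, h1 B' hB']
  obtain ⟨B, hB⟩ := hspan z hz
  refine ⟨B, fun B' hB' => ?_⟩
  set z' : X := ⟨z, Submodule.le_topologicalClosure _ hz⟩ with hz'
  set x' : X := ⟨x, hx⟩ with hx''
  have hzB : P B' z' = z' := hB B' hB'
  have hd : ‖x' - z'‖ < ε / 2 := by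
    rw [dist_eq_norm] at hxz
    exact hxz
  have h1 : P B' x' - x' = P B' (x' - z') - (x' - z') := by
    rw [map_sub, hzB]; abel
  rw [h1]
  have h2 := norm_P_le B' (x' - z')
  have h3 := norm_sub_le (P B' (x' - z')) (x' - z')
  linarith

/-- the branch vectors -/
noncomputable def xX : List ℕ → X
  | [] => eX []
  | (n :: t) => xX t + eX (n :: t)

theorem xX_aux (g : I) : ∀ t : List ℕ, (∀ s, s <:+ t → g.1 s = 0) → ev g (xX t) = 0
  | [], h => by
      have := h [] (List.suffix_refl _)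
      simpa [xX] using this
  | (n :: t), h => by
      have h1 := xX_aux g t (fun s hs => h s (hs.trans (List.suffix_cons n t)))
      have h2 := h (n :: t) (List.suffix_refl _)
      rw [xX, map_add, h1, ev_eX, h2, add_zero]

theorem xX_val (g : I) (s : List ℕ) (hs : g.1 s ≠ 0) :
    ∀ t : List ℕ, s <:+ t → ev g (xX t) = g.1 s
  | [], h => by
      have : s = [] := List.suffix_nil.mp h
      subst this
      simp [xX]
  | (n :: t), h => by
      rw [xX, map_add, ev_eX]
      rw [List.suffix_cons_iff] at h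
      rcases h with h | h
      · subst h
        rw [xX_aux g t, zero_add]
        intro r hr
        by_contra hr0
        have h1 := g.2.2.1 r (n :: t) hr0 hs (hr.trans (List.suffix_cons n t))
        rw [h1] at hr
        have := hr.length_le
        simp at this
      · rw [xX_val g s hs t h]
        have : g.1 (n :: t) = 0 := by
          by_contra h0
          have h1 := g.2.2.1 s (n :: t) hs h0 (h.trans (List.suffix_cons n t))
          rw [h1] at h
          have := h.length_le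
          simp at this
        rw [this, add_zero]

theorem norm_xX_le (t : List ℕ) : ‖xX t‖ ≤ 1 := by
  refine norm_X_le _ _ zero_le_one (fun g => ?_)
  by_cases hs : ∀ s, s <:+ t → g.1 s = 0
  · rw [xX_aux g t hs]; simp
  · push Not at hs
    obtain ⟨s, hs1, hs2⟩ := hs
    rw [xX_val g s hs2 t hs1]
    exact g.2.1 s

/-- siblings form the unit vector basis of `c₀` -/
theorem sibling_tendsto (f : X →L[ℝ] ℝ) (t : List ℕ) :
    Filter.Tendsto (fun n => f (eX (n :: t))) Filter.atTop (𝓝 0) := by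
  classical
  have hsum : Summable (fun n : ℕ => |f (eX (n :: t))|) := by
    refine summable_of_sum_le (c := ‖f‖) (fun n => abs_nonneg _) (fun F => ?_)
    set a : ℕ → ℝ := fun n => SignType.sign (f (eX (n :: t))) with ha
    set z : X := ∑ n ∈ F, a n • eX (n :: t) with hz
    have hz1 : ‖z‖ ≤ 1 := by
      have : ∀ g, ‖ev g z‖ ≤ 1 := by
        intro g
        rw [hz, map_sum]
        have hterm : ∀ n, ev g (a n • eX (n :: t)) = a n * g.1 (n :: t) := by
          intro n
          rw [map_smul, smul_eq_mul, ev_eX]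
        simp only [hterm]
        by_cases hF : ∀ n ∈ F, g.1 (n :: t) = 0
        · rw [Finset.sum_eq_zero]
          · simp
          · intro n hn
            rw [hF n hn, mul_zero]
        · push Not at hF
          obtain ⟨n, hn, hgn⟩ := hF
          rw [Finset.sum_eq_single n]
          · rw [norm_mul]
            have h1 : ‖a n‖ ≤ 1 := by
              simp only [ha]
              rcases lt_trichotomy (f (eX (n :: t))) 0 with h | h | h
              · simp [sign_neg h]
              · simp [h]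
              · simp [sign_pos h]
            have h2 : ‖g.1 (n :: t)‖ ≤ 1 := g.2.1 _
            have := norm_nonneg (g.1 (n :: t))
            have := norm_nonneg (a n)
            nlinarith
          · intro m _ hmn
            have : g.1 (m :: t) = 0 := by
              by_contra h0
              exact hmn (g.2.2.2 m n t h0 hgn)
            rw [this, mul_zero]
          · intro h; exact absurd hn h
      exact norm_X_le _ _ zero_le_one this
    have hfz : f z = ∑ n ∈ F, |f (eX (n :: t))| := by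
      rw [hz, map_sum]
      refine Finset.sum_congr rfl (fun n _ => ?_)
      rw [map_smul, smul_eq_mul]
      exact sign_mul_self _
    rw [← hfz]
    calc f z ≤ |f z| := le_abs_self _
      _ ≤ ‖f‖ * ‖z‖ := f.le_opNorm z
      _ ≤ ‖f‖ * 1 := by gcongr
      _ = ‖f‖ := mul_one _
  have := hsum.tendsto_atTop_zero
  exact (tendsto_zero_iff_abs_tendsto_zero _).mpr this


/-! ### No renorming of `X` has the Daugavet property -/

theorem no_DP {Y : Type*} [NormedAddCommGroup Y] [NormedSpace ℝ Y] (Φ : X ≃L[ℝ] Y)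
    (hDP : ∀ (f : Y →L[ℝ] ℝ) (v : Y),
      ‖ContinuousLinearMap.id ℝ Y + f.smulRight v‖ = 1 + ‖f.smulRight v‖) : False := by
  classical
  set Q : Finset (List ℕ) → Y →L[ℝ] Y := fun A =>
    (Φ : X →L[ℝ] Y).comp ((P A).comp (Φ.symm : Y →L[ℝ] X)) with hQ
  have hQy : ∀ A y, Q A y = Φ (P A (Φ.symm y)) := fun A y => rfl
  have hQs : ∀ A y, Q A y =
      ∑ t ∈ A, ((ev (dlt t)).comp (Φ.symm : Y →L[ℝ] X)) y • Φ (eX t) := by
    intro A y
    rw [hQy, P_apply, map_sum]
    refine Finset.sum_congr rfl (fun t _ => ?_)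
    rw [map_smul]; rfl
  set K : ℝ := ‖(Φ : X →L[ℝ] Y)‖ * ‖(Φ.symm : Y →L[ℝ] X)‖ with hK
  have hQK : ∀ A, ‖Q A‖ ≤ K := by
    intro A
    refine ContinuousLinearMap.opNorm_le_bound _ (by positivity) (fun y => ?_)
    rw [hQy]
    have h1 : ‖Φ (P A (Φ.symm y))‖ ≤ ‖(Φ : X →L[ℝ] Y)‖ * ‖P A (Φ.symm y)‖ :=
      (Φ : X →L[ℝ] Y).le_opNorm _
    have h2 := norm_P_le A (Φ.symm y)
    have h3 : ‖Φ.symm y‖ ≤ ‖(Φ.symm : Y →L[ℝ] X)‖ * ‖y‖ := (Φ.symm : Y →L[ℝ] X).le_opNorm _
    calc ‖Φ (P A (Φ.symm y))‖ ≤ ‖(Φ : X →L[ℝ] Y)‖ * ‖P A (Φ.symm y)‖ := h1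
      _ ≤ ‖(Φ : X →L[ℝ] Y)‖ * (‖(Φ.symm : Y →L[ℝ] X)‖ * ‖y‖) :=
          mul_le_mul_of_nonneg_left (h2.trans h3) (by positivity)
      _ = K * ‖y‖ := by rw [hK]; ring
  have hbdd : BddAbove (range fun A => ‖Q A‖) := ⟨K, by rintro _ ⟨A, rfl⟩; exact hQK A⟩
  set S : ℝ := sSup (range fun A => ‖Q A‖) with hS
  have hleS : ∀ A, ‖Q A‖ ≤ S := fun A => le_csSup hbdd ⟨A, rfl⟩
  have hroot : 0 < ‖Q {[]}‖ := by
    rw [norm_pos_iff]
    intro h0
    have h1 : Q {[]} (Φ (eX [])) = 0 := by rw [h0]; rfl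
    rw [hQy, Φ.symm_apply_apply, P_eX, if_pos (by simp)] at h1
    have h2 : eX [] = 0 := by
      rw [← Φ.symm_apply_apply (eX []), h1, map_zero]
    have h3 : ev (dlt []) (eX []) = 1 := by simp
    rw [h2, map_zero] at h3
    exact zero_ne_one h3
  have hSpos : 0 < S := lt_of_lt_of_le hroot (hleS _)
  obtain ⟨_, ⟨A, rfl⟩, hA⟩ := exists_lt_of_lt_csSup (s := range fun A => ‖Q A‖) ⟨_, ∅, rfl⟩
    (b := max (S - 1 / 2) 0) (max_lt (by linarith) hSpos)
  have hA1 : S - 1 / 2 < ‖Q A‖ := lt_of_le_of_lt (le_max_left _ _) hA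
  have hA2 : 0 < ‖Q A‖ := lt_of_le_of_lt (le_max_right _ _) hA
  obtain ⟨y, hy1, hy2⟩ := de_finrank hDP A
    (fun t => (ev (dlt t)).comp (Φ.symm : Y →L[ℝ] X)) (fun t => Φ (eX t)) (Q A) (hQs A) hA2
    (1 / 4) (by norm_num)
  have hpos : 0 < 1 / (4 * (‖(Φ : X →L[ℝ] Y)‖ + 1)) := by positivity
  obtain ⟨B, hB⟩ := P_tendsto (Φ.symm y) _ hpos
  have hB1 := hB (A ∪ B) Finset.subset_union_right
  have hB2 : ‖Q (A ∪ B) y - y‖ < 1 / 4 := by
    have h1 : Q (A ∪ B) y - y = Φ (P (A ∪ B) (Φ.symm y) - Φ.symm y) := by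
      rw [map_sub, Φ.apply_symm_apply, hQy]
    rw [h1]
    have h2 : ‖Φ (P (A ∪ B) (Φ.symm y) - Φ.symm y)‖
        ≤ ‖(Φ : X →L[ℝ] Y)‖ * ‖P (A ∪ B) (Φ.symm y) - Φ.symm y‖ :=
      (Φ : X →L[ℝ] Y).le_opNorm _
    have h3 : (‖(Φ : X →L[ℝ] Y)‖ + 1) * ‖P (A ∪ B) (Φ.symm y) - Φ.symm y‖ < 1 / 4 := by
      have h4 : (‖(Φ : X →L[ℝ] Y)‖ + 1) * (1 / (4 * (‖(Φ : X →L[ℝ] Y)‖ + 1))) = 1 / 4 := by
        field_simp
      rw [← h4]
      exact mul_lt_mul_of_pos_left hB1 (by positivity)
    have h5 := norm_nonneg (P (A ∪ B) (Φ.symm y) - Φ.symm y)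
    nlinarith
  have hsplit : Q (A ∪ B) y = Q A y + Q (B \ A) y := by
    rw [hQy, hQy, hQy, ← map_add]
    congr 1
    rw [P_apply, P_apply, P_apply, ← Finset.sum_union]
    · rw [Finset.union_sdiff_self_eq_union]
    · exact Finset.disjoint_sdiff
  have h1 : ‖Q (B \ A) y‖ ≤ S := by
    calc ‖Q (B \ A) y‖ ≤ ‖Q (B \ A)‖ * ‖y‖ := (Q (B \ A)).le_opNorm y
      _ ≤ ‖Q (B \ A)‖ * 1 := by gcongr
      _ ≤ S := by rw [mul_one]; exact hleS _
  have h2 : y - Q A y = Q (B \ A) y - (Q (A ∪ B) y - y) := by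
    rw [hsplit]; abel
  have h3 : ‖y - Q A y‖ ≤ ‖Q (B \ A) y‖ + ‖Q (A ∪ B) y - y‖ := by
    rw [h2]; exact norm_sub_le _ _
  linarith

/-! ### The set `conv {x_t}` is not slicely countably determined -/

/-- If a slice contains `x_s`, it contains `x_{s a b}` with `a` as large as we like. -/
theorem pick (f : X →L[ℝ] ℝ) (c : ℝ) (s : List ℕ) (h : c < f (xX s)) (D : Finset (List ℕ)) :
    ∃ a b : ℕ, c < f (xX (b :: a :: s)) ∧ ∀ r ∈ D, ¬ (a :: s) <:+ r := by
  classical
  have hev : ∀ s : List ℕ, c < f (xX s) → ∀ᶠ a in Filter.atTop, c < f (xX (a :: s)) := by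
    intro s hs
    have h1 : Filter.Tendsto (fun a => f (xX (a :: s))) Filter.atTop (𝓝 (f (xX s) + 0)) := by
      have h2 := (sibling_tendsto f s).const_add (f (xX s))
      refine h2.congr (fun a => ?_)
      rw [xX, map_add]
    rw [add_zero] at h1
    exact h1.eventually (lt_mem_nhds hs)
  have h2 : ∀ᶠ a : ℕ in Filter.atTop, ∀ r ∈ D, ¬ (a :: s) <:+ r := by
    have h3 : ∀ᶠ a : ℕ in Filter.atTop, (D.biUnion List.toFinset).sup id < a :=
      Filter.eventually_gt_atTop _
    refine h3.mono (fun a ha r hr hsuf => ?_)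
    have h4 : a ∈ r := hsuf.subset (by simp)
    have h5 : a ∈ D.biUnion List.toFinset := by
      rw [Finset.mem_biUnion]
      exact ⟨r, hr, by simpa using h4⟩
    have h6 : id a ≤ (D.biUnion List.toFinset).sup id := Finset.le_sup h5
    exact absurd ha (not_lt.mpr h6)
  obtain ⟨a, ha1, ha2⟩ := ((hev s h).and h2).exists
  obtain ⟨b, hb⟩ := (hev (a :: s) ha1).exists
  exact ⟨a, b, hb, ha2⟩

/-- the finite stages of the antichain -/
def Good (D : Finset (List ℕ)) : Prop :=
  [] ∉ D ∧ (∀ s ∈ D, ∀ t ∈ D, s <:+ t → s = t) ∧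
  (∀ n m t, n :: t ∈ D → m :: t ∈ D → n = m)

theorem step (f : X →L[ℝ] ℝ) (c : ℝ) (s : List ℕ) (h : c < f (xX s)) (D : Finset (List ℕ))
    (hD : Good D) :
    ∃ D' : Finset (List ℕ), Good D' ∧ D ⊆ D' ∧ ∃ b, c < f (xX b) ∧ ∃ t ∈ D', t <:+ b := by
  classical
  by_cases hex : ∃ t ∈ D, t <:+ s
  · exact ⟨D, hD, Finset.Subset.refl _, s, h, hex⟩
  · push Not at hex
    obtain ⟨a, b, h1, h2⟩ := pick f c s h D
    obtain ⟨hD0, hD1, hD2⟩ := hD
    refine ⟨insert (b :: a :: s) D, ⟨?_, ?_, ?_⟩, Finset.subset_insert _ _, b :: a :: s, h1,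
      b :: a :: s, Finset.mem_insert_self _ _, List.suffix_refl _⟩
    · simp [hD0]
    · intro r hr t ht hrt
      rw [Finset.mem_insert] at hr ht
      rcases hr with rfl | hr
      · rcases ht with rfl | ht
        · rfl
        · exact absurd ((List.suffix_cons b (a :: s)).trans hrt) (h2 t ht)
      · rcases ht with rfl | ht
        · rw [List.suffix_cons_iff] at hrt
          rcases hrt with hrt | hrt
          · exact hrt
          · rw [List.suffix_cons_iff] at hrt
            rcases hrt with hrt | hrt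
            · exact absurd (hrt ▸ List.suffix_refl _) (h2 r hr)
            · exact absurd hrt (hex r hr)
        · exact hD1 r hr t ht hrt
    · intro n m t hn hm
      rw [Finset.mem_insert] at hn hm
      rcases hn with hn | hn
      · rcases hm with hm | hm
        · rw [← hm] at hn
          exact (List.cons.inj hn).1
        · have h3 : t = a :: s := (List.cons.inj hn).2
          subst h3
          exact absurd (List.suffix_cons m _) (h2 _ hm)
      · rcases hm with hm | hm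
        · have h3 : t = a :: s := (List.cons.inj hm).2
          subst h3
          exact absurd (List.suffix_cons n _) (h2 _ hn)
        · exact hD2 n m t hn hm

theorem not_SCD (f : ℕ → (X →L[ℝ] ℝ)) (c : ℕ → ℝ)
    (hne : ∀ n, ∃ x ∈ convexHull ℝ (range xX), c n < f n x) :
    ∃ y : ℕ → X, (∀ n, y n ∈ convexHull ℝ (range xX) ∧ c n < f n (y n)) ∧
      ¬ (convexHull ℝ (range xX) ⊆ closure (convexHull ℝ (range y))) := by
  classical
  have hs : ∀ n, ∃ s, c n < f n (xX s) := by
    intro n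
    by_contra hcon
    push Not at hcon
    obtain ⟨x, hx, hlt⟩ := hne n
    have h1 : convexHull ℝ (range xX) ⊆ {x | f n x ≤ c n} := by
      apply convexHull_min
      · rintro _ ⟨t, rfl⟩
        exact hcon t
      · exact convex_halfSpace_le (f n).toLinearMap.isLinear (c n)
    exact absurd hlt (not_lt.mpr (h1 hx))
  choose s hs using hs
  have hstep : ∀ (k : ℕ) (D : {D : Finset (List ℕ) // Good D}),
      ∃ D' : {D : Finset (List ℕ) // Good D}, D.1 ⊆ D'.1 ∧
        ∃ b, c k < f k (xX b) ∧ ∃ t ∈ D'.1, t <:+ b := by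
    intro k D
    obtain ⟨D', h1, h2, h3⟩ := step (f k) (c k) (s k) (hs k) D.1 D.2
    exact ⟨⟨D', h1⟩, h2, h3⟩
  choose next hnext1 b hb1 hb2 using hstep
  let D : ℕ → {D : Finset (List ℕ) // Good D} :=
    fun k => Nat.rec ⟨∅, by simp [Good]⟩ (fun k D => next k D) k
  have hDsucc : ∀ k, D (k + 1) = next k (D k) := fun k => rfl
  have hmono : Monotone (fun k => (D k).1) := by
    apply monotone_nat_of_le_succ
    intro k
    rw [hDsucc]
    exact hnext1 k (D k)
  set g : I := ⟨fun t => if ∃ k, t ∈ (D k).1 then 1 else 0, by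
    have key : ∀ t, (if ∃ k, t ∈ (D k).1 then (1 : ℝ) else 0) ≠ 0 → ∃ k, t ∈ (D k).1 := by
      intro t ht
      by_contra hh
      simp [hh] at ht
    refine ⟨fun t => ?_, fun s t hs ht hst => ?_, fun n m t hn hm => ?_⟩
    · show |if ∃ k, t ∈ (D k).1 then (1 : ℝ) else 0| ≤ 1
      split_ifs <;> simp
    · obtain ⟨i, hi⟩ := key s hs
      obtain ⟨j, hj⟩ := key t ht
      exact (D (max i j)).2.2.1 s (hmono (le_max_left i j) hi) t (hmono (le_max_right i j) hj) hst
    · obtain ⟨i, hi⟩ := key _ hn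
      obtain ⟨j, hj⟩ := key _ hm
      exact (D (max i j)).2.2.2 n m t (hmono (le_max_left i j) hi)
        (hmono (le_max_right i j) hj)⟩ with hg
  have hg1 : ∀ t k, t ∈ (D k).1 → g.1 t = 1 := by
    intro t k ht
    have : ∃ k, t ∈ (D k).1 := ⟨k, ht⟩
    simp [hg, this]
  have hg0 : g.1 [] = 0 := by
    have : ¬ ∃ k, [] ∈ (D k).1 := by
      rintro ⟨k, hk⟩
      exact (D k).2.1 hk
    simp [hg, this]
  refine ⟨fun k => xX (b k (D k)), fun k => ⟨subset_convexHull ℝ _ ⟨_, rfl⟩, hb1 k (D k)⟩, ?_⟩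
  intro hsub
  set y : X →L[ℝ] ℝ := ev (dlt []) - ev g with hy
  have hyx : ∀ t, y (xX t) = 1 - ev g (xX t) := by
    intro t
    have h1 : ev (dlt []) (xX t) = 1 := by
      rw [xX_val (dlt []) [] (by simp) t (List.nil_suffix)]
      simp
    rw [hy]
    show ev (dlt []) (xX t) - ev g (xX t) = _
    rw [h1]
  have hyb : ∀ k, y (xX (b k (D k))) = 0 := by
    intro k
    obtain ⟨t, ht1, ht2⟩ := hb2 k (D k)
    rw [← hDsucc] at ht1
    have h1 := hg1 t (k + 1) ht1
    rw [hyx, xX_val g t (by rw [h1]; exact one_ne_zero) _ ht2, h1, sub_self]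
  have hyr : y (xX []) = 1 := by
    rw [hyx]
    have : ev g (xX []) = 0 := by
      rw [xX, ev_eX, hg0]
    rw [this, sub_zero]
  have h1 : closure (convexHull ℝ (range fun k => xX (b k (D k)))) ⊆ {x | y x ≤ 0} := by
    apply closure_minimal
    · apply convexHull_min
      · rintro _ ⟨k, rfl⟩
        exact (hyb k).le
      · exact convex_halfSpace_le y.toLinearMap.isLinear 0
    · exact isClosed_le y.continuous continuous_const
  have h2 : y (xX []) ≤ 0 := h1 (hsub (subset_convexHull ℝ _ ⟨[], rfl⟩))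
  rw [hyr] at h2
  exact absurd h2 (by norm_num)

end Pool.Agent.E11434
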